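import Mathlib

namespace Pool.Agent.Results.MP_d479ed_co.Lower

open Finset

/-- No induced `K_{1,3}`: among any three distinct neighbours of a vertex two are adjacent. -/
def ClawFree {V : Type} (G : SimpleGraph V) : Prop :=
  ∀ u x y z, G.Adj u x → G.Adj u y → G.Adj u z → x ≠ y → x ≠ z → y ≠ z →
    G.Adj x y ∨ G.Adj x z ∨ G.Adj y z

/-- `S` is a total dominating set: every vertex has a neighbour in `S`. -/
def IsTotalDom {V : Type} (G : SimpleGraph V) (S : Finset V) : Prop :=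
  ∀ u, ∃ v ∈ S, G.Adj u v

def val (b : Bool) : ℤ := if b then 1 else 0
def W (s r : Bool) : ℤ := if !s && r then 4 else 3
def ph (x v : Bool) : ℤ := if x && !v then -1 else 0

theorem pend : ∀ s r a b c d e f : Bool, (s || a || b) → (c || r || b) → (f || r || a) →
    (a || d || e) → (e || c || f) → (d || c || f) → (b || d || e) →
    W s r ≤ val r + val a + val b + val c + val d + val e + val f := by
  decide +kernel

theorem skel : ∀ x y v0 v1 v2 : Bool, (x || v1 || v2) → (y || v0 || v2) →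
    ∀ v3 v4 v5 : Bool, (v3 || v0 || v1) → (v2 || v4 || v5) → ∀ v6 v13 : Bool, (v6 || v3 || v5) →
    (v13 || v3 || v4) → ∀ v14 v15 v16 v17 : Bool, (v5 || v14 || v15) → (v15 || v13 || v16) →
    (v14 || v13 || v16) → (v17 || v14 || v15) →
    10 + ph x v0 - ph v1 y ≤ val v0 + val v1 + val v2 + val v3 + val v4 + val v5 + W v4 v6 +
      val v13 + val v14 + val v15 + val v16 + W v16 v17 := by
  decide +kernel

def t1 : Fin 24 → Fin 24 :=
  ![1, 0, 3, 2, 6, 13, 4, 9, 12, 7, 11, 10, 8, 5, 15, 14, 17, 16, 20, 23, 18, 22, 21, 19]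
def t2 : Fin 24 → Fin 24 :=
  ![1, 0, 0, 4, 3, 3, 7, 6, 6, 10, 9, 9, 10, 14, 13, 13, 14, 18, 17, 17, 21, 20, 20, 21]
def t3 : Fin 24 → Fin 24 :=
  ![2, 2, 1, 5, 5, 4, 8, 8, 7, 11, 12, 12, 11, 15, 16, 16, 15, 19, 19, 18, 22, 23, 23, 22]
def par : Fin 24 → Fin 24 :=
  ![0, 0, 0, 2, 3, 3, 4, 6, 6, 7, 9, 9, 10, 5, 13, 13, 14, 16, 17, 17, 18, 20, 20, 21]
def sh (a : Fin 24) : ℤ := if a = 0 then -1 else if a = 1 then 1 else 0

abbrev V (N : ℕ) := ZMod (N + 2) × Fin 24

def n1 {N : ℕ} (u : V N) : V N := (u.1 + (sh u.2 : ZMod (N + 2)), t1 u.2)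
def n2 {N : ℕ} (u : V N) : V N := (u.1, t2 u.2)
def n3 {N : ℕ} (u : V N) : V N := (u.1, t3 u.2)

theorem one_ne (N : ℕ) : (1 : ZMod (N + 2)) ≠ 0 := by
  intro h
  have : ((1 : ℕ) : ZMod (N + 2)) = 0 := by simpa using h
  rw [ZMod.natCast_eq_zero_iff] at this
  have := Nat.le_of_dvd (by norm_num) this
  omega

theorem f1 : ∀ a, t1 (t1 a) = a ∧ sh a + sh (t1 a) = 0 := by decide
theorem f2 : ∀ a, (a = t2 (t2 a) ∨ a = t3 (t2 a)) ∧ (a = t2 (t3 a) ∨ a = t3 (t3 a)) := by decide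
theorem f3 : ∀ a, a ≠ t1 a ∧ a ≠ t2 a ∧ a ≠ t3 a ∧ t1 a ≠ t3 a ∧ t2 a ≠ t3 a ∧
    (t1 a ≠ t2 a ∨ sh a = 1 ∨ sh a = -1) := by decide
theorem f4 : ∀ a, (t3 a = t2 (t2 a) ∨ t3 a = t3 (t2 a)) ∨ (sh (t2 a) = 0 ∧ t3 a = t1 (t2 a)) ∨
    (sh a = 0 ∧ (t2 a = t2 (t1 a) ∨ t2 a = t3 (t1 a))) := by decide
theorem f5 : ∀ a, a = 0 ∨ ((par a).val < a.val ∧
    (par a = t2 a ∨ par a = t3 a ∨ (sh a = 0 ∧ par a = t1 a))) := by decide

theorem symm' {N : ℕ} (u v : V N) (h : v = n1 u ∨ v = n2 u ∨ v = n3 u) :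
    u = n1 v ∨ u = n2 v ∨ u = n3 v := by
  obtain ⟨i, a⟩ := u
  rcases h with rfl | rfl | rfl
  · left
    refine Prod.ext ?_ (f1 a).1.symm
    show i = i + (sh a : ZMod (N + 2)) + (sh (t1 a) : ZMod (N + 2))
    rw [add_assoc, ← Int.cast_add, (f1 a).2]; simp
  · exact Or.inr ((f2 a).1.imp (fun h => Prod.ext rfl h) (fun h => Prod.ext rfl h))
  · exact Or.inr ((f2 a).2.imp (fun h => Prod.ext rfl h) (fun h => Prod.ext rfl h))

theorem irr {N : ℕ} (u : V N) : ¬ (u = n1 u ∨ u = n2 u ∨ u = n3 u) := by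
  obtain ⟨h1, h2, h3, -⟩ := f3 u.2
  rintro (h | h | h)
  exacts [h1 (congrArg Prod.snd h), h2 (congrArg Prod.snd h), h3 (congrArg Prod.snd h)]

theorem dist {N : ℕ} (u : V N) : n1 u ≠ n2 u ∧ n1 u ≠ n3 u ∧ n2 u ≠ n3 u := by
  obtain ⟨-, -, -, h1, h2, h3⟩ := f3 u.2
  refine ⟨fun h => ?_, fun h => h1 (congrArg Prod.snd h), fun h => h2 (congrArg Prod.snd h)⟩
  have e : u.1 + (sh u.2 : ZMod (N + 2)) = u.1 := congrArg Prod.fst h
  rcases h3 with h3 | h3 | h3
  · exact h3 (congrArg Prod.snd h)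
  · rw [h3] at e; exact one_ne N (by simpa using e)
  · rw [h3] at e; exact one_ne N (by simpa using e)

def G (N : ℕ) : SimpleGraph (V N) where
  Adj u v := v = n1 u ∨ v = n2 u ∨ v = n3 u
  symm := ⟨fun u v h => symm' u v h⟩
  loopless := ⟨fun u h => irr u h⟩

instance (N : ℕ) : DecidableRel (G N).Adj := fun u v =>
  inferInstanceAs (Decidable (v = n1 u ∨ v = n2 u ∨ v = n3 u))

theorem nbr {N : ℕ} (u : V N) : (G N).neighborFinset u = {n1 u, n2 u, n3 u} := by
  ext v
  simp [G]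

theorem claw (N : ℕ) : ClawFree (G N) := by
  intro u x y z hx hy hz xy xz yz
  have key : (G N).Adj (n2 u) (n3 u) ∨ (G N).Adj (n1 u) (n2 u) := by
    rcases f4 u.2 with (h | h) | ⟨h0, h⟩ | ⟨h0, h | h⟩
    · exact Or.inl (Or.inr (Or.inl (Prod.ext rfl h)))
    · exact Or.inl (Or.inr (Or.inr (Prod.ext rfl h)))
    · exact Or.inl (Or.inl (Prod.ext (by simp [n1, n2, n3, h0]) h))
    · exact Or.inr (Or.inr (Or.inl (Prod.ext (by simp [n1, n2, h0]) h)))
    · exact Or.inr (Or.inr (Or.inr (Prod.ext (by simp [n1, n2, n3, h0]) h)))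
  rcases key with k | k <;> have k' := k.symm <;>
    rcases hx with rfl | rfl | rfl <;> rcases hy with rfl | rfl | rfl <;>
    rcases hz with rfl | rfl | rfl <;>
    first | exact absurd rfl xy | exact absurd rfl xz | exact absurd rfl yz | simp [k, k']

theorem conn (N : ℕ) : (G N).Connected := by
  have h0 : ∀ (i : ZMod (N + 2)) (m : ℕ) (a : Fin 24), a.val = m →
      (G N).Reachable (i, a) (i, 0) := by
    intro i m
    induction m using Nat.strong_induction_on with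
    | _ m ih =>
      intro a ha
      rcases f5 a with rfl | ⟨hl, h⟩
      · exact SimpleGraph.Reachable.refl _
      · refine SimpleGraph.Reachable.trans (SimpleGraph.Adj.reachable ?_)
          (ih _ (ha ▸ hl) (par a) rfl)
        rcases h with h | h | ⟨h0, h⟩
        · exact Or.inr (Or.inl (Prod.ext rfl h))
        · exact Or.inr (Or.inr (Prod.ext rfl h))
        · exact Or.inl (Prod.ext (by simp [n1, h0]) h)
  have h2 : ∀ m : ℕ, (G N).Reachable ((m : ZMod (N + 2)), 0) (0, 0) := by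
    intro m
    induction m with
    | zero => simp
    | succ m ih =>
      refine SimpleGraph.Reachable.trans (SimpleGraph.Adj.reachable ?_).symm
        ((h0 _ _ 1 rfl).trans ih)
      exact Or.inl (Prod.ext (by simp [n1, sh]) rfl)
  have h3 : ∀ u : V N, (G N).Reachable u (0, 0) := by
    rintro ⟨i, a⟩
    refine (h0 i _ a rfl).trans ?_
    have := h2 i.val
    rwa [ZMod.natCast_zmod_val] at this
  exact ⟨fun u v => (h3 u).trans (h3 v).symm⟩

theorem bound {N : ℕ} (S : Finset (V N)) (h : IsTotalDom (G N) S) :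
    5 * Fintype.card (V N) ≤ 12 * S.card := by
  let g : V N → Bool := fun v => decide (v ∈ S)
  have L : ∀ u, (g (n1 u) || g (n2 u) || g (n3 u)) = true := by
    intro u
    obtain ⟨v, hv, rfl | rfl | rfl⟩ := h u <;> simp [g, hv]
  have I : ∀ (i : ZMod (N + 2)) (a : Fin 24), sh a = 0 →
      (g (i, t1 a) || g (i, t2 a) || g (i, t3 a)) = true := by
    intro i a ha
    simpa [n1, n2, n3, ha] using L (i, a)
  have unit : ∀ i : ZMod (N + 2), 10 + ph (g (i - 1, 1)) (g (i, 0)) - ph (g (i, 1)) (g (i + 1, 0))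
      ≤ ∑ a : Fin 24, val (g (i, a)) := by
    intro i
    have l0 : (g (i - 1, 1) || g (i, 1) || g (i, 2)) = true := by
      have := L (i, 0)
      simp only [n1, sh, if_true, Int.cast_neg, Int.cast_one, ← sub_eq_add_neg] at this
      exact this
    have l1 : (g (i + 1, 0) || g (i, 0) || g (i, 2)) = true := by
      have := L (i, 1)
      have e : sh 1 = 1 := rfl
      simp only [n1, e, Int.cast_one] at this
      exact this
    have p : W (g (i, 4)) (g (i, 6)) ≤ val (g (i, 6)) + val (g (i, 7)) + val (g (i, 8)) +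
        val (g (i, 9)) + val (g (i, 10)) + val (g (i, 11)) + val (g (i, 12)) :=
      pend _ _ _ _ _ _ _ _ (I i 6 rfl) (I i 7 rfl) (I i 8 rfl) (I i 9 rfl) (I i 10 rfl)
        (I i 11 rfl) (I i 12 rfl)
    have q : W (g (i, 16)) (g (i, 17)) ≤ val (g (i, 17)) + val (g (i, 18)) + val (g (i, 19)) +
        val (g (i, 20)) + val (g (i, 21)) + val (g (i, 22)) + val (g (i, 23)) :=
      pend _ _ _ _ _ _ _ _ (I i 17 rfl) (I i 18 rfl) (I i 19 rfl) (I i 20 rfl) (I i 21 rfl)
        (I i 22 rfl) (I i 23 rfl)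
    have s := skel _ _ _ _ _ l0 l1 (g (i, 3)) (g (i, 4)) (g (i, 5)) (I i 2 rfl) (I i 3 rfl)
      (g (i, 6)) (g (i, 13)) (I i 4 rfl) (I i 5 rfl) (g (i, 14)) (g (i, 15)) (g (i, 16))
      (g (i, 17)) (I i 13 rfl) (I i 14 rfl) (I i 15 rfl) (I i 16 rfl)
    have e : ∑ a : Fin 24, val (g (i, a)) = val (g (i, 0)) + (val (g (i, 1)) + (val (g (i, 2)) +
      (val (g (i, 3)) + (val (g (i, 4)) + (val (g (i, 5)) + (val (g (i, 6)) + (val (g (i, 7)) +
      (val (g (i, 8)) + (val (g (i, 9)) + (val (g (i, 10)) + (val (g (i, 11)) + (val (g (i, 12)) +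
      (val (g (i, 13)) + (val (g (i, 14)) + (val (g (i, 15)) + (val (g (i, 16)) +
      (val (g (i, 17)) + (val (g (i, 18)) + (val (g (i, 19)) + (val (g (i, 20)) +
      (val (g (i, 21)) + (val (g (i, 22)) + (val (g (i, 23)) + 0))))))))))))))))))))))) := by
      simp only [Fin.sum_univ_succ, Fin.sum_univ_zero]
      rfl
    rw [e]
    linarith
  have tel : ∑ i : ZMod (N + 2), ph (g (i - 1, 1)) (g (i, 0)) =
      ∑ i : ZMod (N + 2), ph (g (i, 1)) (g (i + 1, 0)) := by
    rw [← Equiv.sum_comp (Equiv.addRight (1 : ZMod (N + 2)))]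
    simp
  have T := sum_le_sum (fun i (_ : i ∈ (univ : Finset (ZMod (N + 2)))) => unit i)
  rw [sum_sub_distrib, sum_add_distrib, tel, ← Fintype.sum_prod_type' (fun i a => val (g (i, a)))]
    at T
  have c : ∑ x : V N, val (g (x.1, x.2)) = S.card := by simp [val, g]
  rw [c] at T
  simp only [sum_const, card_univ, ZMod.card, nsmul_eq_mul, Fintype.card_prod,
    Fintype.card_fin] at T ⊢
  have : ((N + 2 : ℕ) : ℤ) * 10 ≤ S.card := by linarith
  omega

/-- For every `N` there is a connected claw-free cubic graph with at least `N` vertices all of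
whose total dominating sets have at least `5/12` of the vertices. -/
theorem result (N : ℕ) : ∃ (V : Type) (_ : Fintype V) (G : SimpleGraph V)
    (_ : DecidableRel G.Adj), N ≤ Fintype.card V ∧ G.Connected ∧ (∀ v, G.degree v = 3) ∧
    ClawFree G ∧ ∀ S : Finset V, IsTotalDom G S → 5 * Fintype.card V ≤ 12 * S.card := by
  refine ⟨V N, inferInstance, G N, inferInstance, ?_, conn N, fun u => ?_, claw N,
    fun S h => bound S h⟩
  · simp [ZMod.card]; omega
  · obtain ⟨d1, d2, d3⟩ := dist u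
    rw [← SimpleGraph.card_neighborFinset_eq_degree, nbr,
      card_insert_of_notMem (by simp [d1, d2]), card_insert_of_notMem (by simp [d3]),
      card_singleton]

end Pool.Agent.Results.MP_d479ed_co.Lower
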